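import Mathlib

namespace Pool.Agent.Results.MP_400b40_lc.IEP

/-- Modal formulas in `⊥`, `→`, `□`. -/
inductive Fm : Type
  | var : ℕ → Fm
  | bot : Fm
  | imp : Fm → Fm → Fm
  | box : Fm → Fm

/-- Uniform substitution. -/
def Fm.subst (σ : ℕ → Fm) : Fm → Fm
  | .var n => σ n
  | .bot => .bot
  | .imp a b => .imp (a.subst σ) (b.subst σ)
  | .box a => .box (a.subst σ)

/-- The variable `k` occurs in the formula. -/
def Fm.Occ (k : ℕ) : Fm → Prop
  | .var n => n = k
  | .bot => False
  | .imp a b => a.Occ k ∨ b.Occ k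
  | .box a => a.Occ k

/-- Goedel numbering of formulas. -/
def Fm.code : Fm → ℕ
  | .var n => 3 * n + 1
  | .bot => 0
  | .imp a b => 3 * Nat.pair a.code b.code + 2
  | .box a => 3 * a.code + 3

/-- Instances of classical tautologies: true under every Boolean assignment to formulas that
respects `⊥` and `→`. -/
def Taut (φ : Fm) : Prop :=
  ∀ v : Fm → Prop, ¬ v .bot → (∀ a b, v (.imp a b) ↔ (v a → v b)) → v φ

/-- Normal modal logics containing the Loeb axiom. -/
structure IsGLExt (L : Set Fm) : Prop where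
  taut : ∀ φ, Taut φ → φ ∈ L
  axK : Fm.imp (.box (.imp (.var 0) (.var 1))) (.imp (.box (.var 0)) (.box (.var 1))) ∈ L
  loeb : Fm.imp (.box (.imp (.box (.var 0)) (.var 0))) (.box (.var 0)) ∈ L
  mp : ∀ φ ψ, Fm.imp φ ψ ∈ L → φ ∈ L → ψ ∈ L
  nec : ∀ φ ∈ L, Fm.box φ ∈ L
  subst : ∀ φ ∈ L, ∀ σ, φ.subst σ ∈ L

/-- `φ → ψ` has an `L`-interpolant. -/
def HasInterpolant (L : Set Fm) (φ ψ : Fm) : Prop :=
  ∃ χ : Fm, (∀ k, χ.Occ k → φ.Occ k ∧ ψ.Occ k) ∧ Fm.imp φ χ ∈ L ∧ Fm.imp χ ψ ∈ L

open Nat.Partrec (Code)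
open Nat.Partrec.Code

def dep (e j : ℕ) : ℕ := if j ≤ e then j else j - 1

def sat (e : ℕ) (v : ℕ → ℕ → Prop) : ℕ → Fm → Prop
  | x, .var k => v k x
  | _, .bot => False
  | x, .imp a b => sat e v x a → sat e v x b
  | x, .box a => ∀ y, dep e y < dep e x → sat e v y a

def ok (e x : ℕ) : Prop := e % 2 = 1 ∨ evaln x (Denumerable.ofNat Code (e / 2)) 0 = none

def LL : Set Fm := {φ | ∀ e x v, ok e x → sat e v x φ}

lemma lt_of_dep {e x y : ℕ} (h : dep e y < dep e x) : y < x := by
  unfold dep at h; split_ifs at h <;> omega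

lemma dep_mono {e x y : ℕ} (h : y ≤ x) : dep e y ≤ dep e x := by
  unfold dep; split_ifs <;> omega

lemma ok_mono {e x y : ℕ} (h : ok e x) (hy : y ≤ x) : ok e y := by
  rcases h with h | h
  · exact Or.inl h
  · right
    by_contra hc
    obtain ⟨z, hz⟩ := Option.ne_none_iff_exists'.1 hc
    have := evaln_mono hy (show z ∈ _ from hz)
    rw [h] at this
    cases this

lemma sat_subst (e v σ) (φ : Fm) : ∀ x, sat e v x (φ.subst σ) ↔
    sat e (fun k j => sat e v j (σ k)) x φ := by
  induction φ with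
  | var n => intro x; rfl
  | bot => intro x; rfl
  | imp a b i1 i2 => intro x; simp only [Fm.subst, sat, i1, i2]
  | box a i1 => intro x; simp only [Fm.subst, sat, i1]

lemma LL_gl : IsGLExt LL where
  taut φ h e x v _ := h (fun a => sat e v x a) (fun h => h) (fun _ _ => Iff.rfl)
  axK e x v _ := fun h1 h2 y hy => h1 y hy (h2 y hy)
  loeb e x v _ := by
    intro h y
    induction y using Nat.strong_induction_on with
    | _ y ih => exact fun hy => h y hy fun z hz => ih z (lt_of_dep hz) (hz.trans hy)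
  mp φ ψ h1 h2 e x v ho := h1 e x v ho (h2 e x v ho)
  nec φ h e x v ho := fun y hy => h e y v (ok_mono ho (lt_of_dep hy).le)
  subst φ h σ e x v ho := (sat_subst e v σ φ x).2 (h e x _ ho)

lemma sat_local (e) (v v' : ℕ → ℕ → Prop) (φ : Fm) : ∀ x,
    (∀ k, φ.Occ k → ∀ j ≤ x, v k j ↔ v' k j) → (sat e v x φ ↔ sat e v' x φ) := by
  induction φ with
  | var n => intro x h; exact h n rfl x le_rfl
  | bot => intro x _; rfl
  | imp a b i1 i2 =>
    intro x h
    simp only [sat]
    rw [i1 x fun k hk => h k (Or.inl hk), i2 x fun k hk => h k (Or.inr hk)]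
  | box a i1 =>
    intro x h
    simp only [sat]
    exact forall_congr' fun y => imp_congr_right fun hy =>
      i1 y fun k hk j hj => h k hk j (hj.trans (lt_of_dep hy).le)

/-! Small models. -/

open Classical in
noncomputable def sel (e : ℕ) (v : ℕ → ℕ → Prop) : Fm → Finset ℕ
  | .var _ => ∅
  | .bot => ∅
  | .imp a b => sel e v a ∪ sel e v b
  | .box a => if h : ∃ y, ¬ sat e v y a then insert (Nat.find h) (sel e v a) else sel e v a

def nb : Fm → ℕ
  | .var _ => 0
  | .bot => 0
  | .imp a b => nb a + nb b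
  | .box a => nb a + 1

lemma sel_card (e v) (φ : Fm) : (sel e v φ).card ≤ nb φ := by
  induction φ with
  | var n => simp [sel]
  | bot => simp [sel]
  | imp a b i1 i2 => exact (Finset.card_union_le _ _).trans (Nat.add_le_add i1 i2)
  | box a i1 =>
    simp only [sel, nb]
    split_ifs
    · exact (Finset.card_insert_le _ _).trans (by omega)
    · omega

lemma nb_le (φ : Fm) : nb φ ≤ φ.code := by
  induction φ with
  | var n => simp [nb]
  | bot => simp [nb]
  | imp a b i1 i2 =>
    have h1 := Nat.left_le_pair a.code b.code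
    have h2 := Nat.right_le_pair a.code b.code
    simp only [nb, Fm.code]; omega
  | box a i1 => simp only [nb, Fm.code]; omega

def sk (d j : ℕ) : ℕ := if j < d then j else j + 1

open Classical in
lemma sat_del (e e' d : ℕ) (v) (hd : ∀ a b, dep e' a < dep e' b ↔ dep e (sk d a) < dep e (sk d b))
    (φ : Fm) : d ∉ sel e v φ → ∀ x,
      (sat e' (fun k j => v k (sk d j)) x φ ↔ sat e v (sk d x) φ) := by
  induction φ with
  | var n => intro _ x; rfl
  | bot => intro _ x; rfl
  | imp a b i1 i2 =>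
    intro h x
    simp only [sel, Finset.mem_union, not_or] at h
    simp only [sat]
    rw [i1 h.1, i2 h.2]
  | box a i1 =>
    intro h x
    simp only [sel] at h
    simp only [sat]
    split_ifs at h with hex
    · simp only [Finset.mem_insert, not_or] at h
      constructor
      · intro H y hy
        by_contra hc
        have h1 : Nat.find hex ≤ y := Nat.find_min' hex hc
        obtain ⟨z, hz⟩ : ∃ z, sk d z = Nat.find hex := by
          by_cases c : Nat.find hex < d
          · exact ⟨_, if_pos c⟩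
          · exact ⟨Nat.find hex - 1, by unfold sk; rw [if_neg (by omega)]; omega⟩
        have := (i1 h.2 z).1 (H z ((hd _ _).2 (by rw [hz]; exact (dep_mono h1).trans_lt hy)))
        rw [hz] at this
        exact Nat.find_spec hex this
      · intro H y hy
        exact (i1 h.2 y).2 (H _ ((hd _ _).1 hy))
    · push Not at hex
      exact ⟨fun _ y _ => hex y, fun _ y _ => (i1 h y).2 (hex _)⟩

def Ref (φ : Fm) (e x : ℕ) : Prop := ∃ v, ¬ sat e v x φ

lemma exists_free (S : Finset ℕ) (a n : ℕ) (h : S.card < n) : ∃ d, a ≤ d ∧ d < a + n ∧ d ∉ S := by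
  by_contra hc
  push Not at hc
  have : Finset.Ico a (a + n) ⊆ S := fun d hd => by
    rw [Finset.mem_Ico] at hd; exact hc d hd.1 hd.2
  have := Finset.card_le_card this
  simp at this
  omega

lemma shrink_e (φ : Fm) (e x : ℕ) (he : φ.code + 1 ≤ e) (h : Ref φ (e + 1) x) :
    ∃ x' ≤ x, Ref φ e x' := by
  obtain ⟨v, hv⟩ := h
  obtain ⟨d, -, h2, h3⟩ := exists_free (insert x (sel (e + 1) v φ)) 0 (e + 1) (by
    have := Finset.card_insert_le x (sel (e + 1) v φ)
    have := sel_card (e + 1) v φ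
    have := nb_le φ
    omega)
  simp only [Finset.mem_insert, not_or] at h3
  have := sat_del (e + 1) e d v (fun a b => by unfold dep sk; split_ifs <;> omega) φ h3.2
    (if x < d then x else x - 1)
  rw [show sk d (if x < d then x else x - 1) = x by unfold sk; split_ifs <;> omega] at this
  exact ⟨_, by split_ifs <;> omega, _, fun h => hv (this.1 h)⟩

lemma shrink_x (φ : Fm) (e x : ℕ) (hx : e + φ.code + 2 ≤ x) (h : Ref φ e (x + 1)) : Ref φ e x := by
  obtain ⟨v, hv⟩ := h
  obtain ⟨d, h1, h2, h3⟩ := exists_free (sel e v φ) (e + 2) (φ.code + 1) (by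
    have := sel_card e v φ
    have := nb_le φ
    omega)
  have := sat_del e e d v (fun a b => by unfold dep sk; split_ifs <;> omega) φ h3 x
  rw [show sk d x = x + 1 by unfold sk; split_ifs <;> omega] at this
  exact ⟨_, fun h => hv (this.1 h)⟩

lemma small_x (φ : Fm) (e x : ℕ) (h : Ref φ e x) : ∃ x' ≤ x, x' ≤ e + φ.code + 2 ∧ Ref φ e x' := by
  induction x with
  | zero => exact ⟨0, le_rfl, by omega, h⟩
  | succ x ih =>
    by_cases c : e + φ.code + 2 ≤ x
    · obtain ⟨x', h1, h2⟩ := ih (shrink_x φ e x c h)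
      exact ⟨x', by omega, h2⟩
    · exact ⟨x + 1, le_rfl, by omega, h⟩

lemma small_e (φ : Fm) (e' : ℕ) (he : φ.code + 1 ≤ e') : ∀ e, e' ≤ e → ∀ x, Ref φ e x →
    ∃ x', Ref φ e' x' := by
  intro e h
  induction e, h using Nat.le_induction with
  | base => exact fun x h => ⟨x, h⟩
  | succ e h ih =>
    intro x hx
    obtain ⟨x', _, h'⟩ := shrink_e φ e x (by omega) hx
    exact ih x' h'

lemma bits (M : ℕ) : ∀ g : ℕ → Prop, ∃ m < 2 ^ M, ∀ i < M, (m / 2 ^ i % 2 = 1 ↔ g i) := by
  classical
  induction M with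
  | zero => exact fun g => ⟨0, by simp, by simp⟩
  | succ M ih =>
    intro g
    obtain ⟨m, h1, h2⟩ := ih (fun i => g (i + 1))
    refine ⟨2 * m + if g 0 then 1 else 0, by rw [pow_succ]; split_ifs <;> omega, fun i hi => ?_⟩
    cases i with
    | zero => split_ifs with c <;> simp [c] <;> omega
    | succ i =>
      rw [pow_succ', ← Nat.div_div_eq_div_mul,
        show (2 * m + if g 0 then 1 else 0) / 2 = m by split_ifs <;> omega]
      exact h2 i (by omega)

def val (m : ℕ) (k j : ℕ) : Prop := m / 2 ^ Nat.pair k j % 2 = 1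

lemma occ_le {k : ℕ} {φ : Fm} (h : φ.Occ k) : k ≤ φ.code := by
  induction φ with
  | var n => cases h; simp only [Fm.code]; omega
  | bot => exact h.elim
  | imp a b i1 i2 =>
    have h1 := Nat.left_le_pair a.code b.code
    have h2 := Nat.right_le_pair a.code b.code
    simp only [Fm.code]
    rcases h with h | h
    · have := i1 h; omega
    · have := i2 h; omega
  | box a i1 => have := i1 h; simp only [Fm.code]; omega

lemma mem_iff (φ : Fm) : φ ∈ LL ↔ ∀ e < φ.code + 3, ∀ x < 2 * φ.code + 5,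
    ∀ m < 2 ^ ((2 * φ.code + 5) * (2 * φ.code + 5)), ok e x → sat e (val m) x φ := by
  refine ⟨fun h e _ x _ m _ ho => h e x _ ho, fun h e x v ho => ?_⟩
  by_contra hc
  obtain ⟨e1, x1, h1, h2, h3⟩ : ∃ e1 x1, e1 < φ.code + 3 ∧ ok e1 x1 ∧ Ref φ e1 x1 := by
    by_cases c : e < φ.code + 3
    · exact ⟨e, x, c, ho, v, hc⟩
    · obtain ⟨x', h'⟩ := small_e φ (φ.code + 1 + φ.code % 2) (by omega) e (by omega) x ⟨v, hc⟩
      exact ⟨_, x', by omega, Or.inl (by omega), h'⟩
  obtain ⟨x2, h4, h5, w, hw⟩ := small_x φ e1 x1 h3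
  obtain ⟨m, hm, hb⟩ := bits ((2 * φ.code + 5) * (2 * φ.code + 5))
    (fun i => w i.unpair.1 i.unpair.2)
  apply hw
  rw [← sat_local e1 (val m) w φ x2]
  · exact h e1 h1 x2 (by omega) m hm (ok_mono h2 h4)
  · intro k hk j hj
    have h6 := occ_le hk
    have h7 := Nat.pair_lt_max_add_one_sq k j
    have h8 : (max k j + 1) ^ 2 ≤ (2 * φ.code + 5) ^ 2 := Nat.pow_le_pow_left (by omega) 2
    have := hb (Nat.pair k j) (by rw [← pow_two]; omega)
    simpa [val] using this

/-! Computability of membership. -/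

def dec (c : ℕ) : Fm :=
  if _h : c = 0 then .bot
  else if c % 3 = 1 then .var (c / 3)
  else if c % 3 = 2 then .imp (dec (c / 3).unpair.1) (dec (c / 3).unpair.2)
  else .box (dec (c / 3 - 1))
termination_by c
decreasing_by
  · have := Nat.unpair_left_le (c / 3); omega
  · have := Nat.unpair_right_le (c / 3); omega
  · omega

lemma dec_code (φ : Fm) : dec φ.code = φ := by
  induction φ with
  | var n => rw [dec, Fm.code, dif_neg (by omega), if_pos (by omega)]; congr 1; omega
  | bot => rw [dec, Fm.code, dif_pos rfl]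
  | imp a b i1 i2 =>
    rw [dec, Fm.code, dif_neg (by omega), if_neg (by omega), if_pos (by omega),
      show (3 * Nat.pair a.code b.code + 2) / 3 = Nat.pair a.code b.code by omega,
      Nat.unpair_pair, i1, i2]
  | box a i1 =>
    rw [dec, Fm.code, dif_neg (by omega), if_neg (by omega), if_neg (by omega),
      show (3 * a.code + 3) / 3 - 1 = a.code by omega, i1]

lemma code_dec (c : ℕ) : (dec c).code = c := by
  induction c using Nat.strong_induction_on with
  | _ c ih =>
    rw [dec]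
    split_ifs with h1 h2 h3
    · rw [h1]; rfl
    · simp only [Fm.code]; omega
    · have h4 := Nat.unpair_left_le (c / 3)
      have h5 := Nat.unpair_right_le (c / 3)
      simp only [Fm.code]
      rw [ih _ (by omega), ih _ (by omega), Nat.pair_unpair]; omega
    · simp only [Fm.code]
      rw [ih _ (by omega)]; omega

open Classical in
noncomputable def tb (a : ℕ × ℕ) (k : ℕ) : Bool :=
  decide (sat a.1 (val a.2) k.unpair.2 (dec k.unpair.1))

def stepP (a : ℕ × ℕ) (l : List Bool) : Prop :=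
  l.length.unpair.1 ≠ 0 ∧
  (l.length.unpair.1 % 3 = 1 →
    a.2 / 2 ^ Nat.pair (l.length.unpair.1 / 3) l.length.unpair.2 % 2 = 1) ∧
  (l.length.unpair.1 % 3 = 2 →
    l.getD (Nat.pair (l.length.unpair.1 / 3).unpair.1 l.length.unpair.2) false = true →
    l.getD (Nat.pair (l.length.unpair.1 / 3).unpair.2 l.length.unpair.2) false = true) ∧
  (l.length.unpair.1 % 3 = 0 → ∀ y ∈ List.range l.length.unpair.2,
    dep a.1 y < dep a.1 l.length.unpair.2 →
    l.getD (Nat.pair (l.length.unpair.1 / 3 - 1) y) false = true)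

lemma pair_lt {a b c d : ℕ} (h1 : a < c) (h2 : b ≤ d) : Nat.pair a b < Nat.pair c d := by
  rcases h2.eq_or_lt with rfl | h
  · exact Nat.pair_lt_pair_left _ h1
  · exact (Nat.pair_lt_pair_left _ h1).trans (Nat.pair_lt_pair_right _ h)

lemma stepP_iff (a : ℕ × ℕ) (k : ℕ) : stepP a ((List.range k).map (tb a)) ↔ tb a k = true := by
  obtain ⟨φ, j, rfl⟩ : ∃ (φ : Fm) (j : ℕ), k = Nat.pair φ.code j :=
    ⟨dec k.unpair.1, k.unpair.2, by rw [code_dec, Nat.pair_unpair]⟩
  have g : ∀ (ψ : Fm) i, ψ.code < φ.code → i ≤ j →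
      (((List.range (Nat.pair φ.code j)).map (tb a)).getD (Nat.pair ψ.code i) false = true ↔
        sat a.1 (val a.2) i ψ) := by
    intro ψ i h1 h2
    have := pair_lt h1 h2
    simp [List.getD, this, tb, dec_code]
  simp only [stepP, List.length_map, List.length_range, Nat.unpair_pair, tb, dec_code,
    decide_eq_true_eq]
  cases φ with
  | var n =>
    simp only [Fm.code, sat, val]
    rw [show (3 * n + 1) / 3 = n by omega]
    exact ⟨fun h => h.2.1 (by omega), fun h => ⟨by omega, fun _ => h, by omega, by omega⟩⟩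
  | bot => simp [Fm.code, sat]
  | imp b c =>
    have h1 := Nat.left_le_pair b.code c.code
    have h2 := Nat.right_le_pair b.code c.code
    have g1 := g b j (by simp only [Fm.code]; omega) le_rfl
    have g2 := g c j (by simp only [Fm.code]; omega) le_rfl
    simp only [Fm.code, sat] at *
    rw [show (3 * Nat.pair b.code c.code + 2) / 3 = Nat.pair b.code c.code by omega,
      Nat.unpair_pair, g1, g2]
    exact ⟨fun h => h.2.2.1 (by omega), fun h => ⟨by omega, by omega, fun _ => h, by omega⟩⟩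
  | box b =>
    have g1 := fun i => g b i (by simp only [Fm.code]; omega)
    simp only [Fm.code, sat] at *
    rw [show (3 * b.code + 3) / 3 - 1 = b.code by omega]
    constructor
    · intro h y hy
      have := lt_of_dep hy
      exact (g1 y this.le).1 (h.2.2.2 (by omega) y (List.mem_range.2 this) hy)
    · intro h
      exact ⟨by omega, by omega, by omega, fun _ y hy hd =>
        (g1 y (List.mem_range.1 hy).le).2 (h y hd)⟩

open Primrec

lemma pimp {α} [Primcodable α] {p q : α → Prop} (hp : PrimrecPred p) (hq : PrimrecPred q) :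
    PrimrecPred fun a => p a → q a :=
  (hp.not.or hq).of_eq fun _ => imp_iff_not_or.symm

lemma prim_dep : Primrec₂ dep :=
  Primrec.ite (nat_le.comp snd fst) snd (nat_sub.comp snd (const 1))

lemma prim_pow : Primrec₂ ((· ^ ·) : ℕ → ℕ → ℕ) := Primrec₂.unpaired'.1 Nat.Primrec.pow

lemma ball {α} [Primcodable α] {R : ℕ → α → Prop} (h : PrimrecRel R) {f : α → ℕ}
    (hf : Primrec f) : PrimrecPred fun a => ∀ y ∈ List.range (f a), R y a :=
  h.forall_mem_list.comp (list_range.comp hf) Primrec.id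

lemma prim_stepP : PrimrecPred fun p : (ℕ × ℕ) × List Bool => stepP p.1 p.2 := by
  have hc : Primrec fun p : (ℕ × ℕ) × List Bool => p.2.length.unpair.1 :=
    fst.comp (unpair.comp (list_length.comp snd))
  have hj : Primrec fun p : (ℕ × ℕ) × List Bool => p.2.length.unpair.2 :=
    snd.comp (unpair.comp (list_length.comp snd))
  have hm := nat_mod.comp hc (const 3)
  have hd := nat_div.comp hc (const 3)
  refine (Primrec.eq.comp hc (const 0)).not.and (PrimrecPred.and ?_ (PrimrecPred.and ?_ ?_))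
  · exact pimp (Primrec.eq.comp hm (const 1)) (Primrec.eq.comp (nat_mod.comp (nat_div.comp
      (snd.comp fst) (prim_pow.comp (const 2) (Primrec₂.natPair.comp hd hj))) (const 2)) (const 1))
  · exact pimp (Primrec.eq.comp hm (const 2)) (pimp
      (Primrec.eq.comp ((list_getD false).comp snd
        (Primrec₂.natPair.comp (fst.comp (unpair.comp hd)) hj)) (const true))
      (Primrec.eq.comp ((list_getD false).comp snd
        (Primrec₂.natPair.comp (snd.comp (unpair.comp hd)) hj)) (const true)))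
  · refine pimp (Primrec.eq.comp hm (const 0)) (ball (R := fun y (p : (ℕ × ℕ) × List Bool) =>
      dep p.1.1 y < dep p.1.1 p.2.length.unpair.2 →
        p.2.getD (Nat.pair (p.2.length.unpair.1 / 3 - 1) y) false = true) ?_ hj)
    exact pimp (nat_lt.comp (prim_dep.comp (fst.comp (fst.comp snd)) fst)
      (prim_dep.comp (fst.comp (fst.comp snd)) (hj.comp snd)))
      (Primrec.eq.comp ((list_getD false).comp (snd.comp snd)
        (Primrec₂.natPair.comp (nat_sub.comp (hd.comp snd) (const 1)) fst)) (const true))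

lemma prim_tb : Primrec₂ tb := by
  classical
  refine nat_strong_rec tb (g := fun a l => some (decide (stepP a l)))
    (option_some.comp prim_stepP.decide).to₂ fun a k => ?_
  congr 1
  rw [Bool.eq_iff_iff, decide_eq_true_eq, stepP_iff]

lemma prim_ok : PrimrecRel ok := by
  refine (Primrec.eq.comp (nat_mod.comp fst (const 2)) (const 1)).or ?_
  exact Primrec.eq.comp (primrec_evaln.comp (pair (pair snd
    ((Primrec.ofNat Code).comp (nat_div.comp fst (const 2)))) (const 0))) (const none)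

lemma prim_mem : PrimrecPred fun n : ℕ => ∃ φ ∈ LL, φ.code = n := by
  have hb : Primrec fun n : ℕ => 2 * n + 5 := nat_add.comp (nat_mul.comp (const 2) Primrec.id) (const 5)
  have h3 : PrimrecPred fun p : ℕ × ℕ × ℕ => ∀ m ∈ List.range (2 ^ ((2 * p.2.2 + 5) * (2 * p.2.2 + 5))),
      ok p.2.1 p.1 → tb (p.2.1, m) (Nat.pair p.2.2 p.1) = true := by
    refine ball (R := fun m (p : ℕ × ℕ × ℕ) => ok p.2.1 p.1 → tb (p.2.1, m) (Nat.pair p.2.2 p.1) = true)
      ?_ (prim_pow.comp (const 2) (nat_mul.comp (hb.comp (snd.comp snd)) (hb.comp (snd.comp snd))))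
    exact pimp (prim_ok.comp (fst.comp (snd.comp snd)) (fst.comp snd))
      (Primrec.eq.comp (prim_tb.comp (pair (fst.comp (snd.comp snd)) fst)
        (Primrec₂.natPair.comp (snd.comp (snd.comp snd)) (fst.comp snd))) (const true))
  have h2 := ball (R := fun x (p : ℕ × ℕ) => ∀ m ∈ List.range (2 ^ ((2 * p.2 + 5) * (2 * p.2 + 5))),
      ok p.1 x → tb (p.1, m) (Nat.pair p.2 x) = true) h3 (hb.comp snd)
  have h1 := ball (R := fun e (n : ℕ) => ∀ x ∈ List.range (2 * n + 5),
      ∀ m ∈ List.range (2 ^ ((2 * n + 5) * (2 * n + 5))),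
      ok e x → tb (e, m) (Nat.pair n x) = true) h2 (nat_add.comp Primrec.id (const 3))
  refine h1.of_eq fun n => ?_
  obtain ⟨φ, rfl⟩ : ∃ φ : Fm, n = φ.code := ⟨dec n, (code_dec n).symm⟩
  simp only [List.mem_range, tb, Nat.unpair_pair, dec_code, decide_eq_true_eq, id]
  rw [← mem_iff]
  refine ⟨fun h => ⟨φ, h, rfl⟩, fun ⟨ψ, h, e⟩ => ?_⟩
  rwa [← dec_code φ, ← e, dec_code]

/-! The reduction. -/

def neg (a : Fm) : Fm := .imp a .bot
def and (a b : Fm) : Fm := neg (.imp a (neg b))
def dia (a : Fm) : Fm := neg (.box (neg a))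

def B : ℕ → Fm
  | 0 => .bot
  | n + 1 => .box (B n)

lemma sat_neg {e v x a} : sat e v x (neg a) ↔ ¬ sat e v x a := Iff.rfl
lemma sat_and {e v x a b} : sat e v x (and a b) ↔ sat e v x a ∧ sat e v x b := by
  simp [and, neg, sat]
lemma sat_dia {e v x a} : sat e v x (dia a) ↔ ∃ y, dep e y < dep e x ∧ sat e v y a := by
  simp [dia, neg, sat]

lemma sat_B (e v) (n : ℕ) : ∀ x, sat e v x (B n) ↔ dep e x < n := by
  induction n with
  | zero => intro x; simp [B, sat]
  | succ n ih =>
    intro x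
    simp only [B, sat, ih]
    constructor
    · intro h
      by_contra hc
      have := h (if n ≤ e then n else n + 1) (by unfold dep at *; split_ifs at * <;> omega)
      unfold dep at this
      split_ifs at this <;> omega
    · intro h y hy; omega

lemma B_occ (k n : ℕ) : ¬ (B n).Occ k := by
  induction n with
  | zero => exact fun h => h
  | succ n ih => exact ih

def phi (b : Fm) : Fm :=
  and (dia (and (and (.box b) (neg b)) (.var 4)))
    (and (dia (and (and (.box b) (neg b)) (neg (.var 4))))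
      (and (dia (and (.var 1) (and (neg (.var 3)) (neg (.box b)))))
        (.box (.imp (.var 2) (and (.var 3) (.box (.var 3)))))))

def psi : Fm := neg (and (dia (and (.var 2) (neg (.var 5)))) (.box (.imp (.var 1) (.box (.var 5)))))

def chi : ℕ → Fm
  | 0 => .bot
  | d + 1 => .imp (neg (and (dia (and (.var 1) (neg (B d)))) (.box (.imp (.var 2) (B d))))) (chi d)

lemma sat_chi {e v x} (T : ℕ) : sat e v x (chi T) ↔ ∃ d < T,
    (∃ y, dep e y < dep e x ∧ v 1 y ∧ d ≤ dep e y) ∧ ∀ y, dep e y < dep e x → v 2 y → dep e y < d := by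
  induction T with
  | zero => simp [chi, sat]
  | succ T ih =>
    rw [chi, sat, ih, sat_neg, sat_and, sat_dia]
    simp only [sat_and, sat_neg, sat, sat_B, not_lt]
    rw [Nat.exists_lt_succ_right, imp_iff_not_or, not_not, or_comm]

lemma chi_occ (k T : ℕ) : (chi T).Occ k → k = 1 ∨ k = 2 := by
  induction T with
  | zero => exact fun h => h.elim
  | succ T ih =>
    have := B_occ k T
    simp only [chi, neg, and, dia, Fm.Occ, or_false, this]
    rintro ((h | h) | h)
    · exact Or.inl h.symm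
    · exact Or.inr h.symm
    · exact ih h

lemma sat_phi {e v x n} : sat e v x (phi (B n)) ↔
    (∃ y, dep e y < dep e x ∧ dep e y = n ∧ v 4 y) ∧ (∃ y, dep e y < dep e x ∧ dep e y = n ∧ ¬ v 4 y) ∧
    (∃ y, dep e y < dep e x ∧ v 1 y ∧ ¬ v 3 y ∧ n < dep e y) ∧
    ∀ y, dep e y < dep e x → v 2 y → v 3 y ∧ ∀ z, dep e z < dep e y → v 3 z := by
  have hb : ∀ y, sat e v y (.box (B n)) ↔ dep e y < n + 1 := sat_B e v (n + 1)
  have he : ∀ y, (dep e y < n + 1 ∧ ¬ dep e y < n) ↔ dep e y = n := fun y => by omega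
  have hl : ∀ y, (¬ dep e y < n + 1) ↔ n < dep e y := fun y => by omega
  simp only [phi, sat_and, sat_dia, sat_neg, hb, sat_B, he, hl]
  simp only [sat, sat_and]

lemma sat_psi {e v x} : sat e v x psi ↔ ¬ ((∃ y, dep e y < dep e x ∧ v 2 y ∧ ¬ v 5 y) ∧
    ∀ y, dep e y < dep e x → v 1 y → ∀ z, dep e z < dep e y → v 5 z) := by
  simp only [psi, sat_and, sat_dia, sat_neg]
  simp only [sat]

lemma interp_of_halt (i T : ℕ) (h : evaln T (Denumerable.ofNat Code i) 0 ≠ none) :
    HasInterpolant LL (phi (B (2 * i))) psi := by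
  refine ⟨chi T, fun k hk => ?_, fun e x v ho H => ?_, fun e x v _ H => ?_⟩
  · rcases chi_occ k T hk with rfl | rfl <;> simp [phi, psi, and, dia, neg, Fm.Occ]
  · obtain ⟨⟨y1, a1, a2, a3⟩, ⟨y2, b1, b2, b3⟩, ⟨y, c1, c2, c3, c4⟩, d⟩ := sat_phi.1 H
    have hne : y1 ≠ y2 := fun e => b3 (e ▸ a3)
    have he : e = 2 * i := by unfold dep at a2 b2; split_ifs at a2 b2 <;> omega
    subst he
    have hx : x < T := by
      by_contra hc
      rcases ok_mono ho (not_lt.1 hc) with k | k
      · omega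
      · rw [show 2 * i / 2 = i by omega] at k; exact h k
    refine (sat_chi T).2 ⟨dep (2 * i) y, ?_, ⟨y, c1, c2, le_rfl⟩, fun z hz h2 => ?_⟩
    · have := lt_of_dep c1
      unfold dep; split_ifs <;> omega
    · by_contra hc
      rcases (not_lt.1 hc).eq_or_lt with k | k
      · have : z = y := by unfold dep at k c4; split_ifs at k c4 <;> omega
        exact c3 (this ▸ (d z hz h2).1)
      · exact c3 ((d z hz h2).2 y k)
  · obtain ⟨d, _, ⟨y, a1, a2, a3⟩, b⟩ := (sat_chi T).1 H
    rw [sat_psi]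
    rintro ⟨⟨z, c1, c2, c3⟩, c4⟩
    exact c3 (c4 y a1 a2 z ((b z c1 c2).trans_le a3))

def par (k j : ℕ) : Prop := (k = 1 ∧ j % 2 = 1) ∨ (k = 2 ∧ j % 2 = 0)

lemma stable (e : ℕ) (χ : Fm) : ∃ K, ∃ b : Prop, ∀ x, K ≤ x →
    (sat e (fun k j => j ≠ x ∧ par k j) x χ ↔ b) := by
  induction χ with
  | var n => exact ⟨0, False, fun x _ => by simp [sat]⟩
  | bot => exact ⟨0, False, fun x _ => Iff.rfl⟩
  | imp a b i1 i2 =>
    obtain ⟨K1, b1, h1⟩ := i1
    obtain ⟨K2, b2, h2⟩ := i2
    exact ⟨K1 + K2, b1 → b2, fun x hx => by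
      simp only [sat]; rw [h1 x (by omega), h2 x (by omega)]⟩
  | box a _ =>
    have key : ∀ x, sat e (fun k j => j ≠ x ∧ par k j) x (.box a) ↔
        ∀ y, dep e y < dep e x → sat e par y a := fun x =>
      forall_congr' fun y => imp_congr_right fun hy => sat_local e _ _ a y fun k _ j hj => by
        have := lt_of_dep hy
        exact ⟨fun h => h.2, fun h => ⟨by omega, h⟩⟩
    by_cases c : ∃ y, ¬ sat e par y a
    · obtain ⟨y, hy⟩ := c
      refine ⟨y + 2, False, fun x hx => ?_⟩
      rw [key]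
      exact ⟨fun h => hy (h y (by unfold dep; split_ifs <;> omega)), False.elim⟩
    · push Not at c
      exact ⟨0, True, fun x _ => by rw [key]; exact ⟨fun _ => trivial, fun _ y _ => c y⟩⟩

lemma no_interp (i : ℕ) (h : ∀ T, evaln T (Denumerable.ofNat Code i) 0 = none) :
    ¬ HasInterpolant LL (phi (B (2 * i))) psi := by
  rintro ⟨χ, h0, h1, h2⟩
  have ho : ∀ x, ok (2 * i) x := fun x => Or.inr (by rw [show 2 * i / 2 = i by omega]; exact h x)
  have hv : ∀ k, χ.Occ k → k = 1 ∨ k = 2 := by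
    intro k hk
    have a := (h0 k hk).1
    have b := (h0 k hk).2
    have := B_occ k (2 * i)
    simp only [phi, psi, and, dia, neg, Fm.Occ, or_false, this, false_or] at a b
    omega
  obtain ⟨K, b, hK⟩ := stable (2 * i) χ
  set x := 2 * (K + i + 2) with hx
  have s1 := h1 (2 * i) x (fun k j => (j ≠ x ∧ par k j) ∨ (k = 3 ∧ j ≠ x - 1) ∨ (k = 4 ∧ j = 2 * i))
    (ho _) (sat_phi.2 ⟨⟨2 * i, by unfold dep; split_ifs <;> omega, by simp [dep], by simp⟩,
      ⟨2 * i + 1, by unfold dep; split_ifs <;> omega, by simp [dep], by simp [par]⟩,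
      ⟨x - 1, by unfold dep; split_ifs <;> omega, Or.inl ⟨by omega, Or.inl ⟨rfl, by omega⟩⟩,
        by simp [par], by unfold dep; split_ifs <;> omega⟩, fun y hy h2 => by
        have := lt_of_dep hy
        simp only [par] at h2
        refine ⟨Or.inr (Or.inl ⟨rfl, by omega⟩), fun z hz => Or.inr (Or.inl ⟨rfl, ?_⟩)⟩
        have := lt_of_dep hz
        omega⟩)
  rw [sat_local _ _ (fun k j => j ≠ x ∧ par k j) χ x (fun k hk j _ => by
    rcases hv k hk with rfl | rfl <;> simp), hK x (by omega), ← hK (x + 1) (by omega),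
    sat_local _ _ (fun k j => (j ≠ x + 1 ∧ par k j) ∨ (k = 5 ∧ j ≠ x)) χ (x + 1) (fun k hk j _ => by
    rcases hv k hk with rfl | rfl <;> simp)] at s1
  have s2 := sat_psi.1 (h2 (2 * i) (x + 1) _ (ho _) s1)
  refine s2 ⟨⟨x, by unfold dep; split_ifs <;> omega, Or.inl ⟨by omega, Or.inr ⟨rfl, by omega⟩⟩,
    by simp [par]⟩, fun y hy _ z hz => Or.inr ⟨rfl, ?_⟩⟩
  have := lt_of_dep hy
  have := lt_of_dep hz
  omega

lemma prim_sub (t : Fm) : ∃ f : ℕ → ℕ, Primrec f ∧ ∀ b : Fm,
    (t.subst (fun n => if n = 0 then b else .var n)).code = f b.code := by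
  induction t with
  | var n =>
    by_cases c : n = 0
    · exact ⟨id, Primrec.id, fun b => by simp [Fm.subst, c]⟩
    · exact ⟨fun _ => 3 * n + 1, const _, fun b => by simp [Fm.subst, c, Fm.code]⟩
  | bot => exact ⟨fun _ => 0, const _, fun b => rfl⟩
  | imp a b i1 i2 =>
    obtain ⟨f, hf, h1⟩ := i1
    obtain ⟨g, hg, h2⟩ := i2
    exact ⟨fun c => 3 * Nat.pair (f c) (g c) + 2,
      nat_add.comp (nat_mul.comp (const 3) (Primrec₂.natPair.comp hf hg)) (const 2),
      fun b => by simp only [Fm.subst, Fm.code, h1, h2]⟩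
  | box a i1 =>
    obtain ⟨f, hf, h1⟩ := i1
    exact ⟨fun c => 3 * f c + 3, nat_add.comp (nat_mul.comp (const 3) hf) (const 3),
      fun b => by simp only [Fm.subst, Fm.code, h1]⟩

lemma prim_B : Primrec fun n => (B n).code := by
  refine (nat_rec₁ 0 (f := fun _ c => 3 * c + 3)
    (nat_add.comp (nat_mul.comp (const 3) snd) (const 3)).to₂).of_eq fun n => ?_
  induction n with
  | zero => rfl
  | succ n ih => simp only [B, Fm.code, ← ih]

theorem result : ∃ L : Set Fm, IsGLExt L ∧ ComputablePred (fun n : ℕ => ∃ φ ∈ L, φ.code = n) ∧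
    ¬ ComputablePred (fun p : ℕ × ℕ =>
      ∃ φ ψ : Fm, φ.code = p.1 ∧ ψ.code = p.2 ∧ HasInterpolant L φ ψ) := by
  refine ⟨LL, LL_gl, prim_mem.computablePred, fun H => ?_⟩
  obtain ⟨f, hf, h1⟩ := prim_sub (phi (.var 0))
  have hF : Primrec fun c : Code => (f (B (2 * Encodable.encode c)).code, psi.code) :=
    pair (hf.comp (prim_B.comp (nat_mul.comp (const 2) Primrec.encode))) (const _)
  obtain ⟨inst, H⟩ := H
  apply ComputablePred.halting_problem 0
  refine ComputablePred.of_eq ⟨fun c => inst _, H.comp hF.to_comp⟩ fun c => ?_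
  have e : f (B (2 * Encodable.encode c)).code = (phi (B (2 * Encodable.encode c))).code :=
    (h1 _).symm
  simp only [e]
  constructor
  · rintro ⟨φ, ψ, e1, e2, h⟩
    rw [← dec_code φ, ← dec_code ψ, e1, e2, dec_code, dec_code] at h
    by_contra hc
    refine no_interp _ (fun T => ?_) h
    rw [Denumerable.ofNat_encode]
    by_contra hn
    obtain ⟨z, hz⟩ := Option.ne_none_iff_exists'.1 hn
    exact hc (Part.dom_iff_mem.2 ⟨z, evaln_sound (show z ∈ _ from hz)⟩)
  · intro h
    obtain ⟨z, hz⟩ := Part.dom_iff_mem.1 h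
    obtain ⟨T, hT⟩ := evaln_complete.1 hz
    refine ⟨_, _, rfl, rfl, interp_of_halt _ T ?_⟩
    rw [Denumerable.ofNat_encode, show evaln T c 0 = some z from hT]
    simp

end Pool.Agent.Results.MP_400b40_lc.IEP
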